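import Pool.Agent.Lib.MP_a85771_al.Grp

set_option autoImplicit false

namespace Pool.Agent.Lib.MP_a85771_al

open groupHomology

section
variable {H : Type} [Group H]

/-- The class of `h` in rational first homology. -/
noncomputable def cls (h : H) : groupHomology (Rep.trivial ℚ H ℚ) 1 :=
  mkH1OfIsTrivial (Rep.trivial ℚ H ℚ) (Additive.ofMul (Abelianization.of h)) (1 : ℚ)

theorem cls_mul (h k : H) : cls (h * k) = cls h + cls k := by
  unfold cls
  rw [map_mul, ofMul_mul, map_add]
  rfl

theorem dual_eq_zero (φ : Module.Dual ℚ (groupHomology (Rep.trivial ℚ H ℚ) 1))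
    (h : ∀ g : H, φ (cls g) = 0) : φ = 0 := by
  ext x
  induction x using H1_induction_on with
  | h x =>
    have key : ∀ y : H →₀ ℚ, φ (H1π (Rep.trivial ℚ H ℚ)
        ((cycles₁IsoOfIsTrivial (Rep.trivial ℚ H ℚ)).inv y)) = 0 := by
      intro y
      induction y using Finsupp.induction_linear with
      | zero => simp
      | add f g hf hg => rw [map_add, map_add, map_add, hf, hg, add_zero]
      | single g a =>
        have e : (Finsupp.single g a : H →₀ ℚ) = a • Finsupp.single g (1 : ℚ) := by simp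
        rw [e, map_smul, map_smul, map_smul]
        have := h g
        unfold cls at this
        rw [mkH1OfIsTrivial_apply] at this
        erw [this]
        simp
    exact key x.1

end

section
variable (H : Subgroup GG)

/-- Pull-back of functions on the coset space. -/
def act (g : GG) : (GG ⧸ H → ℚ) →ₗ[ℚ] (GG ⧸ H → ℚ) := LinearMap.funLeft ℚ ℚ (fun q => g • q)

theorem act_act (g h : GG) (m : GG ⧸ H → ℚ) : act H g (act H h m) = act H (h * g) m := by
  funext q
  simp [act, LinearMap.funLeft_apply, mul_smul]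

/-- The coboundary from 1-cochains to 2-cochains. -/
def del : (GG ⧸ H → ℚ) × (GG ⧸ H → ℚ) →ₗ[ℚ] (GG ⧸ H → ℚ) :=
  (LinearMap.id - act H (gen 0 * gen 1) - act H (gen 1)).coprod (act H (gen 0) - LinearMap.id)

theorem del_surj [H.FiniteIndex] : Function.Surjective (del H) := by
  rw [← LinearMap.range_eq_top]
  by_contra hne
  obtain ⟨φ, hφ0, hφ⟩ := Submodule.exists_le_ker_of_lt_top _ (lt_top_iff_ne_top.mpr hne)
  have hτ : ∀ m, φ (act H (gen 0) m) = φ m := by
    intro m
    have : φ (del H (0, m)) = 0 := hφ ⟨_, rfl⟩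
    simp only [del, LinearMap.coprod_apply, map_zero, zero_add, LinearMap.sub_apply,
      LinearMap.id_apply, map_sub] at this
    exact sub_eq_zero.mp this
  have hα : ∀ m, φ m = φ (act H (gen 0 * gen 1) m) + φ (act H (gen 1) m) := by
    intro m
    have : φ (del H (m, 0)) = 0 := hφ ⟨_, rfl⟩
    simp only [del, LinearMap.coprod_apply, map_zero, add_zero, LinearMap.sub_apply,
      LinearMap.id_apply, map_sub] at this
    linear_combination this
  have hτn : ∀ (n : ℕ) m, φ (act H (gen 0 ^ n) m) = φ m := by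
    intro n
    induction n with
    | zero => intro m; congr 1; funext q; simp [act, LinearMap.funLeft_apply]
    | succ n ih => intro m; rw [pow_succ, ← act_act, hτ, ih]
  let ρ := MulAction.toPermHom GG (GG ⧸ H)
  have hact : ∀ g h : GG, ρ g = ρ h → act H g = act H h := by
    intro g h e
    unfold act
    congr 1
    funext q
    exact Equiv.congr_fun e q
  have hN : 0 < orderOf (ρ (gen 1)) := orderOf_pos _
  obtain ⟨N, hN'⟩ : ∃ N, orderOf (ρ (gen 1)) = N + 1 := ⟨_, (Nat.succ_pred_eq_of_pos hN).symm⟩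
  have ht : ρ (gen 1 ^ (N + 1)) = 1 := by rw [map_pow, ← hN', pow_orderOf_eq_one]
  have ha : ρ (gen 0) = ρ (gen 0 ^ (2 ^ (N + 1))) := by
    rw [← conj_pow_two gen_rel, map_mul, map_mul, map_inv, ht]
    simp
  have hat : ρ (gen 0 * gen 1) = ρ (gen 1 * gen 0 ^ (2 ^ N)) := by
    have h1 : gen 1 * gen 0 ^ (2 ^ N) = gen 0 ^ (2 ^ (N + 1)) * gen 1 := by
      rw [pow_succ' 2 N, pow_mul, ← gen_rel, conj_pow]
      group
    rw [h1, map_mul, map_mul, ← ha]
  have h2 : ∀ m, φ m = 2 * φ (act H (gen 1) m) := by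
    intro m
    rw [hα m, hact _ _ hat, ← act_act, hτn]
    ring
  have h3 : ∀ (n : ℕ) m, φ m = 2 ^ n * φ (act H (gen 1 ^ n) m) := by
    intro n
    induction n with
    | zero =>
      intro m
      simp only [pow_zero, one_mul]
      congr 1
      funext q
      simp [act, LinearMap.funLeft_apply]
    | succ n ih =>
      intro m
      rw [ih m, h2 (act H (gen 1 ^ n) m), act_act, pow_succ, pow_succ]
      ring
  apply hφ0
  ext1 m
  have h4 := h3 (N + 1) m
  have h5 : act H (gen 1 ^ (N + 1)) m = m := by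
    rw [hact _ 1 (by rw [ht, map_one])]
    funext q
    simp [act, LinearMap.funLeft_apply]
  rw [h5] at h4
  have h6 : (2 : ℚ) ^ (N + 1) ≠ 1 := by
    have : (1 : ℚ) < 2 ^ (N + 1) := one_lt_pow₀ (by norm_num) (by omega)
    exact this.ne'
  have h7 : (2 ^ (N + 1) - 1) * φ m = 0 := by linear_combination -h4
  rcases mul_eq_zero.mp h7 with h8 | h8
  · exact absurd (sub_eq_zero.mp h8) h6
  · exact h8

theorem b1_le [H.FiniteIndex] : b1 H ≤ H.index + 1 := by
  classical
  let _ : Fintype (GG ⧸ H) := Fintype.ofFinite _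
  have hd : Module.finrank ℚ (GG ⧸ H → ℚ) = H.index := by
    rw [Module.finrank_fintype_fun_eq_card, ← Nat.card_eq_fintype_card]; rfl
  let σ : GG ⧸ H → GG := Quotient.out
  have hσ : ∀ q, ((σ q : GG) : GG ⧸ H) = q := fun q => Quotient.out_eq q
  let c : GG → H := fun g => ⟨(σ g)⁻¹ * g, QuotientGroup.eq.mp (hσ g)⟩
  have hq : ∀ (g : GG) (h : H), ((g * h : GG) : GG ⧸ H) = g := fun g h =>
    QuotientGroup.mk_mul_of_mem g h.2
  have hc : ∀ (g : GG) (h : H), c (g * h) = c g * h := by
    intro g h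
    ext
    simp only [c, hq, Subgroup.coe_mul, mul_assoc]
  let FL : Module.Dual ℚ (groupHomology (Rep.trivial ℚ H ℚ) 1) × (GG ⧸ H → ℚ) →ₗ[ℚ] (GG → ℚ) :=
    { toFun := fun p g => p.1 (cls (c g)) + p.2 g
      map_add' := fun p p' => by funext g; simp; ring
      map_smul' := fun r p => by funext g; simp; ring }
  have hFL : ∀ p (g : GG) (h : H), FL p (g * h) = FL p g + p.1 (cls h) := by
    intro p g h
    change p.1 (cls (c (g * h))) + p.2 (g * h : GG) = p.1 (cls (c g)) + p.2 g + p.1 (cls h)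
    rw [hc, cls_mul, map_add, hq]
    ring
  let W : GG → (GG → ℚ) →ₗ[ℚ] (GG ⧸ H → ℚ) := fun x =>
    LinearMap.funLeft ℚ ℚ (fun q => x * σ q) - LinearMap.funLeft ℚ ℚ σ
  have hW : ∀ p (x g : GG), W x (FL p) g = FL p (x * g) - FL p g := by
    intro p x g
    change FL p (x * σ g) - FL p (σ g) = _
    have e : g = σ g * c g := by simp [c]
    conv_rhs => rw [e, ← mul_assoc, hFL, hFL]
    ring
  let Ψ := (((W (gen 0)).prod (W (gen 1))).prod ((W (gen 2)).prod (LinearMap.proj 1))) ∘ₗ FL
  have hΨ : Function.Injective Ψ := by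
    rw [← LinearMap.ker_eq_bot, LinearMap.ker_eq_bot']
    intro p hp
    have h0 : W (gen 0) (FL p) = 0 := congrArg (fun z => z.1.1) hp
    have h1 : W (gen 1) (FL p) = 0 := congrArg (fun z => z.1.2) hp
    have h2 : W (gen 2) (FL p) = 0 := congrArg (fun z => z.2.1) hp
    have h3 : FL p 1 = 0 := congrArg (fun z => z.2.2) hp
    have h4 : ∀ i g, FL p (gen i * g) = FL p g := by
      intro i g
      rw [← sub_eq_zero, ← hW]
      fin_cases i
      · exact congrFun h0 _
      · exact congrFun h1 _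
      · exact congrFun h2 _
    have h5 : ∀ g, FL p g = 0 := by
      intro g
      have hg : g ∈ Subgroup.closure (Set.range gen) := gen_closure ▸ Subgroup.mem_top g
      induction hg using Subgroup.closure_induction_left with
      | one => exact h3
      | mul_left x hx y _ ih =>
        obtain ⟨i, rfl⟩ := hx
        rw [h4, ih]
      | inv_mul_cancel x hx y _ ih =>
        obtain ⟨i, rfl⟩ := hx
        rw [← h4 i, mul_inv_cancel_left, ih]
    have h6 : p.1 = 0 := by
      apply dual_eq_zero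
      intro h
      have := hFL p 1 h
      rw [h5, h5] at this
      simpa using this.symm
    refine Prod.ext h6 ?_
    funext q
    have := h5 (σ q)
    change p.1 _ + p.2 _ = 0 at this
    rw [h6, hσ] at this
    simpa using this
  let δ : ((GG ⧸ H → ℚ) × (GG ⧸ H → ℚ)) × ((GG ⧸ H → ℚ) × ℚ) →ₗ[ℚ] (GG ⧸ H → ℚ) :=
    del H ∘ₗ LinearMap.fst ℚ _ _
  have hδ : LinearMap.range δ = ⊤ := by
    rw [LinearMap.range_eq_top]
    exact (del_surj H).comp Prod.fst_surjective
  have hle : LinearMap.range Ψ ≤ LinearMap.ker δ := by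
    rintro _ ⟨p, rfl⟩
    rw [LinearMap.mem_ker]
    funext q
    obtain ⟨g, rfl⟩ := QuotientGroup.mk_surjective q
    change W (gen 0) (FL p) g - W (gen 0) (FL p) ((gen 0 * gen 1 * g : GG) : GG ⧸ H) -
      W (gen 0) (FL p) ((gen 1 * g : GG) : GG ⧸ H) +
      (W (gen 1) (FL p) ((gen 0 * g : GG) : GG ⧸ H) - W (gen 1) (FL p) g) = 0
    simp only [hW]
    have e : gen 1 * (gen 0 * g) = gen 0 * (gen 0 * gen 1 * g) := by
      rw [← mul_assoc, ← mul_assoc, ← mul_assoc, ← pow_two, ← gen_rel]; group
    rw [e, mul_assoc (gen 0) (gen 1) g]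
    ring
  have r1 := LinearMap.finrank_range_add_finrank_ker δ
  rw [hδ, finrank_top, Module.finrank_prod, Module.finrank_prod, Module.finrank_prod, hd,
    Module.finrank_self] at r1
  have r2 := Submodule.finrank_mono hle
  rw [LinearMap.finrank_range_of_inj hΨ] at r2
  have hfin := FiniteDimensional.of_injective Ψ hΨ
  have hfin2 : FiniteDimensional ℚ (Module.Dual ℚ (groupHomology (Rep.trivial ℚ H ℚ) 1)) :=
    FiniteDimensional.of_injective (LinearMap.inl ℚ _ (GG ⧸ H → ℚ)) LinearMap.inl_injective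
  rw [Module.finrank_prod, hd, Subspace.dual_finrank_eq] at r2
  unfold b1
  omega

end

end Pool.Agent.Lib.MP_a85771_al
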