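import Mathlib

set_option autoImplicit false

open scoped InnerProductSpace

namespace Pool.Agent.Lib.MP_a85771_al

/-- The Hilbert space of square summable complex functions on `X`. -/
abbrev L2 (X : Type) : Type := lp (fun _ : X => ℂ) 2

/-- The first Betti number: the rational dimension of `H₁(H; ℚ)`. -/
noncomputable def b1 (H : Type) [Group H] : ℕ :=
  Module.finrank ℚ (groupHomology (Rep.trivial ℚ H ℚ) 1)

open Classical in
/-- The point mass at `x`. -/
noncomputable def dl {X : Type} (x : X) : L2 X := lp.single 2 x (1 : ℂ)

/-- The diagonal coefficient `⟪x, P x⟫` of the orthogonal projection `P` onto the closure of `V`. -/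
noncomputable def projCoeff {E : Type} [NormedAddCommGroup E] [InnerProductSpace ℂ E]
    [CompleteSpace E] (V : Submodule ℂ E) (x : E) : ℝ :=
  (⟪x, V.topologicalClosure.starProjection x⟫_ℂ).re

/-- The von Neumann dimension of (the closure of) a subspace `V` of `ℓ²(H × ι) = ℓ²(H)^ι`:
the trace `∑ i, ⟪δ (1,i), P (δ (1,i))⟫` of the orthogonal projection `P` onto the closure of `V`. -/
noncomputable def vnDim {H ι : Type} [Group H] [Fintype ι] (V : Submodule ℂ (L2 (H × ι))) : ℝ :=
  ∑ i : ι, projCoeff V (dl ((1 : H), i))

/-- The square summable 1-cycles of the Cayley graph of `H` for the family `s`, whose edge `(h, i)`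
runs from `h` to `h * s i`: the kernel of the boundary map `ℓ²(H × ι) → ℓ²(H)`. -/
noncomputable def cycles {H ι : Type} [Group H] [Fintype ι] (s : ι → H) : Submodule ℂ (L2 (H × ι)) where
  carrier := {f | ∀ g : H, ∑ i : ι, (f (g * (s i)⁻¹, i) - f (g, i)) = 0}
  zero_mem' := by intro g; simp
  add_mem' := by
    intro f f' hf hf' g
    have h1 := hf g
    have h2 := hf' g
    simp only [lp.coeFn_add, Pi.add_apply, Finset.sum_sub_distrib, Finset.sum_add_distrib] at *
    linear_combination h1 + h2
  smul_mem' := by
    intro c f hf g
    have h1 := hf g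
    simp only [lp.coeFn_smul, Pi.smul_apply, smul_eq_mul, ← mul_sub, ← Finset.mul_sum, h1, mul_zero]

/-- The span of the finitely supported 1-cycles of the Cayley graph; for a generating family these
are the boundaries of the 2-chains of a Cayley complex of `H`. -/
noncomputable def boundaries {H ι : Type} [Group H] [Fintype ι] (s : ι → H) : Submodule ℂ (L2 (H × ι)) :=
  Submodule.span ℂ {f | f ∈ cycles s ∧ (Function.support (fun p : H × ι => f p)).Finite}

/-- The first `L²`-Betti number of `H` computed from a finite generating family `s`: the von Neumann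
dimension of the reduced homology (cycles modulo the closure of the boundaries), realised as the
orthogonal complement of the boundaries inside the cycles. -/
noncomputable def b1L2 {H ι : Type} [Group H] [Fintype ι] (s : ι → H) : ℝ :=
  vnDim (cycles s ⊓ (boundaries s)ᗮ)

/-- The fundamental group of the closed orientable surface of genus `g`. -/
abbrev OrientableSurfaceGroup (g : ℕ) : Type :=
  PresentedGroup ({(List.ofFn fun i : Fin g =>
    FreeGroup.of (i, false) * FreeGroup.of (i, true) * (FreeGroup.of (i, false))⁻¹ *
      (FreeGroup.of (i, true))⁻¹).prod} : Set (FreeGroup (Fin g × Bool)))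

/-- The fundamental group of the closed non-orientable surface of genus `k`. -/
abbrev NonorientableSurfaceGroup (k : ℕ) : Type :=
  PresentedGroup ({(List.ofFn fun i : Fin k => FreeGroup.of i ^ 2).prod} : Set (FreeGroup (Fin k)))

/-- Fundamental groups of closed surfaces of negative Euler characteristic: orientable of genus
at least 2, or non-orientable of genus at least 3. -/
def IsHyperbolicSurfaceGroup (G : Type) [Group G] : Prop :=
  (∃ g : ℕ, 2 ≤ g ∧ Nonempty (G ≃* OrientableSurfaceGroup g)) ∨
    (∃ k : ℕ, 3 ≤ k ∧ Nonempty (G ≃* NonorientableSurfaceGroup k))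

end Pool.Agent.Lib.MP_a85771_al
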