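import Mathlib

set_option autoImplicit false

namespace Pool.Agent.Lib.MP_a85771_al

/-- Free groups are residually finite. -/
theorem free_sep {α : Type} (w : FreeGroup α) (hw : w ≠ 1) :
    ∃ (K : Type) (_ : Group K) (_ : Finite K) (κ : FreeGroup α →* K), κ w ≠ 1 := by
  classical
  let S : Finset (FreeGroup α) := (w.toWord.tails.map FreeGroup.mk).toFinset
  have hS : ∀ L, L <:+ w.toWord → FreeGroup.mk L ∈ S := by
    intro L hL
    simp only [S, List.mem_toFinset, List.mem_map, List.mem_tails]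
    exact ⟨L, hL, rfl⟩
  have hσ : ∀ x : α, ∃ σ : Equiv.Perm S, ∀ y : {y : S // FreeGroup.of x * y.1 ∈ S},
      σ y.1 = ⟨FreeGroup.of x * y.1.1, y.2⟩ := by
    intro x
    apply Equiv.Perm.exists_extending_pair (fun y : {y : S // FreeGroup.of x * y.1 ∈ S} => y.1)
      (fun y => (⟨FreeGroup.of x * y.1.1, y.2⟩ : S)) Subtype.val_injective
    intro a b h
    simp only [Subtype.mk.injEq, mul_right_inj] at h
    exact Subtype.ext (Subtype.ext h)
  choose σ hσ using hσ
  have h1 : (1 : FreeGroup α) ∈ S := hS [] List.nil_suffix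
  have key : ∀ L (hL : L <:+ w.toWord),
      FreeGroup.lift σ (FreeGroup.mk L) ⟨1, h1⟩ = ⟨FreeGroup.mk L, hS L hL⟩ := by
    intro L
    induction L with
    | nil => intro hL; rfl
    | cons p L ih =>
      intro hL
      obtain ⟨x, b⟩ := p
      have hL' : L <:+ w.toWord := (List.suffix_cons _ _).trans hL
      cases b with
      | true =>
        have e : FreeGroup.mk ((x, true) :: L) = FreeGroup.of x * FreeGroup.mk L := rfl
        have hm : FreeGroup.of x * FreeGroup.mk L ∈ S := e ▸ hS _ hL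
        have := hσ x ⟨⟨FreeGroup.mk L, hS L hL'⟩, hm⟩
        simp only [e, map_mul, FreeGroup.lift_apply_of, Equiv.Perm.mul_apply, ih hL']
        exact this
      | false =>
        have e : FreeGroup.mk ((x, false) :: L) = (FreeGroup.of x)⁻¹ * FreeGroup.mk L := rfl
        have hm : (FreeGroup.of x)⁻¹ * FreeGroup.mk L ∈ S := e ▸ hS _ hL
        have hm2 : FreeGroup.of x * ((FreeGroup.of x)⁻¹ * FreeGroup.mk L) ∈ S := by
          rw [mul_inv_cancel_left]; exact hS L hL'
        have := hσ x ⟨⟨_, hm⟩, hm2⟩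
        simp only [e, map_mul, map_inv, FreeGroup.lift_apply_of, Equiv.Perm.mul_apply, ih hL']
        rw [Equiv.Perm.inv_eq_iff_eq, this]
        simp
  refine ⟨Equiv.Perm S, inferInstance, inferInstance, FreeGroup.lift σ, fun h => hw ?_⟩
  have := key w.toWord (List.suffix_refl _)
  have h2 := congrArg Subtype.val this
  simp only [FreeGroup.mk_toWord, h] at h2
  simpa using h2.symm

theorem le_norm_pow {α : Type} [DecidableEq α] (a : FreeGroup α) (ha : a ≠ 1) (n : ℕ) :
    n ≤ FreeGroup.norm (a ^ n) := by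
  have hc : FreeGroup.reduceCyclically a.toWord ≠ [] := by
    intro h
    apply ha
    have := congrArg FreeGroup.mk
      (FreeGroup.reduceCyclically.conj_conjugator_reduceCyclically a.toWord)
    rw [h, List.append_nil, ← FreeGroup.mul_mk, ← FreeGroup.inv_mk, mul_inv_cancel,
      FreeGroup.mk_toWord] at this
    exact this.symm
  have hl : 1 ≤ (FreeGroup.reduceCyclically a.toWord).length := List.length_pos_iff.mpr hc
  rcases n with _ | n
  · simp
  · rw [FreeGroup.norm, FreeGroup.toWord_pow,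
      FreeGroup.reduceCyclically.reduce_flatten_replicate_succ FreeGroup.isReduced_toWord]
    simp only [List.length_append, List.length_flatten, List.map_replicate, List.sum_replicate,
      smul_eq_mul]
    nlinarith

theorem conj_pow_two {K : Type} [Group K] {a t : K} (h : t * a * t⁻¹ = a ^ 2) (k : ℕ) :
    t ^ k * a * (t ^ k)⁻¹ = a ^ (2 ^ k) := by
  induction k with
  | zero => simp
  | succ k ih =>
    have : t ^ (k + 1) * a * (t ^ (k + 1))⁻¹ = t * (t ^ k * a * (t ^ k)⁻¹) * t⁻¹ := by
      rw [pow_succ']; group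
    rw [this, ih, ← conj_pow, h, ← pow_mul, pow_succ']

theorem norm_pow_le {α : Type} [DecidableEq α] (t : FreeGroup α) (k : ℕ) :
    FreeGroup.norm (t ^ k) ≤ k * FreeGroup.norm t := by
  induction k with
  | zero => simp
  | succ k ih =>
    rw [pow_succ]
    have := FreeGroup.norm_mul_le (t ^ k) t
    nlinarith

/-- A free group has no nontrivial element conjugate to its square. -/
theorem free_no_bs {α : Type} {a t : FreeGroup α} (h : t * a * t⁻¹ = a ^ 2) : a = 1 := by
  classical
  by_contra ha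
  obtain ⟨T, hT⟩ : ∃ T, T = FreeGroup.norm t := ⟨_, rfl⟩
  obtain ⟨A, hA⟩ : ∃ A, A = FreeGroup.norm a := ⟨_, rfl⟩
  obtain ⟨j, hj⟩ : ∃ j, j = 4 * T + A := ⟨_, rfl⟩
  have h1 := le_norm_pow a ha (2 ^ (2 * j))
  rw [← conj_pow_two h] at h1
  have h2 := FreeGroup.norm_mul_le (t ^ (2 * j) * a) (t ^ (2 * j))⁻¹
  have h3 := FreeGroup.norm_mul_le (t ^ (2 * j)) a
  have h4 := norm_pow_le t (2 * j)
  rw [FreeGroup.norm_inv_eq] at h2
  have h5 : j + 1 ≤ 2 ^ j := Nat.lt_two_pow_self
  have h6 : (j + 1) * (j + 1) ≤ 2 ^ (2 * j) := by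
    rw [two_mul, pow_add]; exact Nat.mul_le_mul h5 h5
  rw [← hT] at h4
  rw [← hA] at h3
  have h7 : (j + 1) * (j + 1) ≤ 2 * j * T + A + 2 * j * T := by linarith
  subst hj
  nlinarith [Nat.zero_le T, Nat.zero_le A, Nat.zero_le (A * A), Nat.zero_le (T * A)]

end Pool.Agent.Lib.MP_a85771_al
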