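import Pool.Agent.Lib.MP_a85771_al.Defs
import Pool.Agent.Lib.MP_a85771_al.Free

set_option autoImplicit false

namespace Pool.Agent.Lib.MP_a85771_al

/-- The relator `t a t⁻¹ a⁻²` with `a = 0`, `t = 1`, and a further free generator `s = 2`. -/
def relG : FreeGroup (Fin 3) :=
  FreeGroup.of 1 * FreeGroup.of 0 * (FreeGroup.of 1)⁻¹ * (FreeGroup.of 0 ^ 2)⁻¹

/-- The free product of `BS(1,2)` with an infinite cyclic group. -/
abbrev GG : Type := PresentedGroup ({relG} : Set (FreeGroup (Fin 3)))

/-- The generators. -/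
def gen (i : Fin 3) : GG := PresentedGroup.of i

theorem gen_closure : Subgroup.closure (Set.range gen) = ⊤ := PresentedGroup.closure_range_of _

theorem gen_rel : gen 1 * gen 0 * (gen 1)⁻¹ = gen 0 ^ 2 := by
  have h : PresentedGroup.mk ({relG} : Set (FreeGroup (Fin 3))) relG = 1 :=
    PresentedGroup.one_of_mem rfl
  unfold relG at h
  simp only [map_mul, map_inv, map_pow] at h
  exact mul_inv_eq_one.mp h

/-- The universal property. -/
def liftG {K : Type} [Group K] (a t s : K) (h : t * a * t⁻¹ = a ^ 2) : GG →* K :=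
  PresentedGroup.toGroup (f := ![a, t, s]) (by
    rintro r rfl
    simp [relG, h])

section
variable {K : Type} [Group K] (a t s : K) (h : t * a * t⁻¹ = a ^ 2)
@[simp] theorem liftG_0 : liftG a t s h (gen 0) = a := PresentedGroup.toGroup.of _
@[simp] theorem liftG_1 : liftG a t s h (gen 1) = t := PresentedGroup.toGroup.of _
@[simp] theorem liftG_2 : liftG a t s h (gen 2) = s := PresentedGroup.toGroup.of _
end

theorem hom_ext {K : Type} [Group K] {f g : GG →* K} (h0 : f (gen 0) = g (gen 0))
    (h1 : f (gen 1) = g (gen 1)) (h2 : f (gen 2) = g (gen 2)) : f = g := by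
  apply PresentedGroup.ext
  intro x
  fin_cases x
  · exact h0
  · exact h1
  · exact h2

/-- The retraction killing `s`. -/
def pr : GG →* GG := liftG (gen 0) (gen 1) 1 gen_rel

theorem pr_pr (g : GG) : pr (pr g) = pr g := by
  have : pr.comp pr = pr := by apply hom_ext <;> simp [pr]
  exact DFunLike.congr_fun this g

theorem conj_zpow_two (l : ℕ) (m : ℤ) : gen 1 ^ l * gen 0 ^ m = gen 0 ^ (2 ^ l * m) * gen 1 ^ l := by
  have h := conj_pow_two gen_rel l
  have h2 : gen 1 ^ l * gen 0 ^ m * (gen 1 ^ l)⁻¹ = gen 0 ^ (2 ^ l * m) := by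
    rw [← conj_zpow, h, ← zpow_natCast, ← zpow_mul]
    simp
  rw [← h2]
  group

theorem pr_nf (g : GG) : ∃ (k l : ℕ) (m : ℤ), pr g = (gen 1 ^ k)⁻¹ * gen 0 ^ m * gen 1 ^ l := by
  have hg : g ∈ Subgroup.closure (Set.range gen) := gen_closure ▸ Subgroup.mem_top g
  induction hg using Subgroup.closure_induction_right with
  | one => exact ⟨0, 0, 0, by simp⟩
  | mul_right x _ y hy ih =>
    obtain ⟨k, l, m, e⟩ := ih
    obtain ⟨i, rfl⟩ := hy
    rw [map_mul, e]
    fin_cases i
    · refine ⟨k, l, m + 2 ^ l * 1, ?_⟩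
      have := conj_zpow_two l 1
      simp only [pr, Fin.zero_eta, liftG_0]
      rw [zpow_add, mul_assoc, mul_assoc, mul_assoc, mul_assoc, ← this, zpow_one]
    · refine ⟨k, l + 1, m, ?_⟩
      simp only [pr, Fin.mk_one, liftG_1]
      rw [pow_succ, mul_assoc]
    · refine ⟨k, l, m, ?_⟩
      simp [pr]
  | mul_inv_cancel x _ y hy ih =>
    obtain ⟨k, l, m, e⟩ := ih
    obtain ⟨i, rfl⟩ := hy
    rw [map_mul, map_inv, e]
    fin_cases i
    · refine ⟨k, l, m + 2 ^ l * (-1), ?_⟩
      have := conj_zpow_two l (-1)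
      simp only [pr, Fin.zero_eta, liftG_0]
      rw [zpow_add, mul_assoc, mul_assoc, mul_assoc, mul_assoc, ← this, zpow_neg, zpow_one]
    · refine ⟨k + 1, l, 2 ^ 1 * m, ?_⟩
      have := conj_zpow_two 1 m
      simp only [pr, Fin.mk_one, liftG_1]
      rw [pow_one] at this
      have h2 : gen 0 ^ (2 ^ 1 * m) = gen 1 * gen 0 ^ m * (gen 1)⁻¹ := by rw [this]; group
      rw [h2, pow_succ']
      group
    · refine ⟨k, l, m, ?_⟩
      simp [pr]

/-- Being detected in a finite quotient. -/
def Sep (g : GG) : Prop := ∃ (K : Type) (_ : Group K) (_ : Finite K) (f : GG →* K), f g ≠ 1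

theorem sep_a (m : ℤ) (hm : m ≠ 0) : Sep (gen 0 ^ m) := by
  let n : ℕ := 2 * m.natAbs + 1
  have : NeZero n := ⟨by omega⟩
  have hco : Nat.Coprime 2 n := by
    rw [Nat.coprime_two_left]; exact ⟨m.natAbs, rfl⟩
  let u : (ZMod n)ˣ := ZMod.unitOfCoprime 2 hco
  have hu : (u : ZMod n) = 2 := by simp [u]
  let A : Equiv.Perm (ZMod n) := Equiv.addRight 1
  let T : Equiv.Perm (ZMod n) := u.mulLeft
  have hrel : T * A * T⁻¹ = A ^ 2 := by
    rw [mul_inv_eq_iff_eq_mul]
    ext x
    simp only [A, T, Equiv.Perm.mul_apply, Equiv.coe_addRight, Units.mulLeft_apply, hu, pow_two]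
    ring
  refine ⟨_, inferInstance, inferInstance, liftG A T 1 hrel, ?_⟩
  rw [map_zpow, liftG_0]
  intro h
  have h2 : (A ^ m) 0 = 0 := by rw [h]; rfl
  have h4 : ∀ j : ℤ, ∀ x, (A ^ j) x = x + j := by
    intro j
    induction j using Int.induction_on with
    | zero => intro x; simp
    | succ j ih =>
      intro x
      rw [zpow_add_one, Equiv.Perm.mul_apply, ih]
      simp only [A, Equiv.coe_addRight]
      push_cast
      ring
    | pred j ih =>
      intro x
      rw [zpow_sub_one, Equiv.Perm.mul_apply, ih]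
      have : A⁻¹ x = x - 1 := by
        rw [Equiv.Perm.inv_eq_iff_eq]; simp [A]
      rw [this]
      push_cast
      ring
  rw [h4, zero_add] at h2
  rw [ZMod.intCast_zmod_eq_zero_iff_dvd] at h2
  have h3 := Int.le_of_dvd (abs_pos.mpr hm) ((dvd_abs _ _).mpr h2)
  simp only [n] at h3
  push_cast at h3
  have := abs_nonneg m
  linarith

theorem sep_pr (g : GG) (hg : pr g ≠ 1) : Sep (pr g) := by
  obtain ⟨k, l, m, e⟩ := pr_nf g
  rw [e] at hg ⊢
  by_cases hkl : k = l
  · subst hkl
    have hm : m ≠ 0 := by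
      rintro rfl
      simp at hg
    obtain ⟨K, _, _, f, hf⟩ := sep_a m hm
    refine ⟨K, inferInstance, inferInstance, f, fun h => hf ?_⟩
    rw [map_mul, map_mul, map_inv] at h
    have : f (gen 0 ^ m) = f (gen 1 ^ k) * ((f (gen 1 ^ k))⁻¹ * f (gen 0 ^ m) * f (gen 1 ^ k)) *
        (f (gen 1 ^ k))⁻¹ := by group
    rw [this, h]
    simp
  · have : NeZero (k + l + 1) := ⟨by omega⟩
    refine ⟨Multiplicative (ZMod (k + l + 1)), inferInstance, inferInstance,
      liftG 1 (Multiplicative.ofAdd 1) 1 (by simp), fun h => hkl ?_⟩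
    simp only [map_mul, map_inv, map_pow, map_zpow, liftG_0, liftG_1, one_zpow, mul_one] at h
    rw [inv_mul_eq_one, ← ofAdd_nsmul, ← ofAdd_nsmul] at h
    have h2 := Multiplicative.ofAdd.injective h
    simp only [nsmul_eq_mul, mul_one] at h2
    rw [ZMod.natCast_eq_natCast_iff'] at h2
    rwa [Nat.mod_eq_of_lt (by omega), Nat.mod_eq_of_lt (by omega)] at h2

theorem sep_list (E : List GG) (h : ∀ e ∈ E, Sep e) :
    ∃ (K : Type) (_ : Group K) (_ : Finite K) (f : GG →* K), ∀ e ∈ E, f e ≠ 1 := by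
  induction E with
  | nil => exact ⟨Unit, inferInstance, inferInstance, 1, by simp⟩
  | cons a E ih =>
    obtain ⟨K, _, _, f, hf⟩ := ih (fun e he => h e (List.mem_cons_of_mem _ he))
    obtain ⟨K', _, _, f', hf'⟩ := h a List.mem_cons_self
    refine ⟨K × K', inferInstance, inferInstance, f.prod f', fun e he h1 => ?_⟩
    rcases List.mem_cons.mp he with rfl | he
    · exact hf' (congrArg Prod.snd h1)
    · exact hf e he (congrArg Prod.fst h1)

/-- The map from the free group on `BS(1,2)` onto the kernel of the retraction. -/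
def io : FreeGroup pr.range →* GG := FreeGroup.lift fun b => (b : GG) * gen 2 * (b : GG)⁻¹

theorem io_of (b : pr.range) : io (FreeGroup.of b) = (b : GG) * gen 2 * (b : GG)⁻¹ := by
  simp [io]

theorem conj_io (c : pr.range) (w : FreeGroup pr.range) :
    (c : GG) * io w * (c : GG)⁻¹ = io (FreeGroup.map (fun b => c * b) w) := by
  have : ((MulAut.conj (c : GG)).toMonoidHom).comp io = io.comp (FreeGroup.map (fun b => c * b)) := by
    ext b
    simp [io_of, mul_assoc]
  exact DFunLike.congr_fun this w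

theorem nf (g : GG) : ∃ w, g = io w * pr g := by
  have hg : g ∈ Subgroup.closure (Set.range gen) := gen_closure ▸ Subgroup.mem_top g
  induction hg using Subgroup.closure_induction with
  | mem y hy =>
    obtain ⟨i, rfl⟩ := hy
    fin_cases i
    · exact ⟨1, by rw [map_one]; simp [pr]⟩
    · exact ⟨1, by rw [map_one]; simp [pr]⟩
    · exact ⟨FreeGroup.of 1, by rw [io_of]; simp [pr]⟩
  | one => exact ⟨1, by simp⟩
  | mul x y _ _ hx hy =>
    obtain ⟨v, hv⟩ := hx
    obtain ⟨w, hw⟩ := hy
    refine ⟨v * FreeGroup.map (fun b => (⟨pr x, x, rfl⟩ : pr.range) * b) w, ?_⟩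
    rw [map_mul, map_mul, ← conj_io]
    conv_lhs => rw [hv, hw]
    group
  | inv x _ hx =>
    obtain ⟨v, hv⟩ := hx
    refine ⟨FreeGroup.map (fun b => (⟨pr x⁻¹, x⁻¹, rfl⟩ : pr.range) * b) v⁻¹, ?_⟩
    rw [← conj_io]
    conv_lhs => rw [hv]
    simp only [map_inv]
    group

theorem sep_io (w : FreeGroup pr.range) (hw : w ≠ 1) : Sep (io w) := by
  classical
  let L : List pr.range := w.toWord.map Prod.fst
  let E : List GG := ((L.product L).filter (fun p => p.1 ≠ p.2)).map
    (fun p => (p.1 : GG)⁻¹ * (p.2 : GG))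
  obtain ⟨Q, _, _, q, hq⟩ := sep_list E (by
    intro e he
    simp only [E, List.mem_map, List.mem_filter] at he
    obtain ⟨⟨⟨b, x, rfl⟩, ⟨c, y, rfl⟩⟩, ⟨-, hne⟩, rfl⟩ := he
    have : (pr x)⁻¹ * pr y = pr (x⁻¹ * y) := by simp
    change Sep ((pr x)⁻¹ * pr y)
    rw [this]
    apply sep_pr
    rw [← this, ne_eq, inv_mul_eq_one]
    intro h
    simp [h] at hne)
  have hinj : ∀ b ∈ L, ∀ c ∈ L, q b = q c → b = c := by
    intro b hb c hc h
    by_contra hne
    apply hq ((b : GG)⁻¹ * (c : GG))
    · simp only [E, List.mem_map, List.mem_filter]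
      exact ⟨(b, c), ⟨List.pair_mem_product.mpr ⟨hb, hc⟩, by simpa using hne⟩, rfl⟩
    · simp [h]
  let r : Q → pr.range := fun y => if h : ∃ b ∈ L, q b = y then h.choose else 1
  have hr : ∀ b ∈ L, r (q b) = b := by
    intro b hb
    have h : ∃ c ∈ L, q (c : GG) = q b := ⟨b, hb, rfl⟩
    simp only [r, dif_pos h]
    exact hinj _ h.choose_spec.1 _ hb h.choose_spec.2
  have hw' : FreeGroup.map (fun b : pr.range => q b) w ≠ 1 := by
    intro h
    apply hw
    have h2 : FreeGroup.map r (FreeGroup.map (fun b : pr.range => q b) w) = w := by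
      rw [FreeGroup.map.comp]
      conv => lhs; rw [← FreeGroup.mk_toWord (x := w)]
      rw [FreeGroup.map.mk]
      conv => rhs; rw [← FreeGroup.mk_toWord (x := w)]
      congr 1
      conv => rhs; rw [← List.map_id w.toWord]
      apply List.map_congr_left
      intro p hp
      have : p.1 ∈ L := List.mem_map_of_mem hp
      simp [hr _ this]
    rw [← h2, h, map_one]
  obtain ⟨K, _, _, κ, hκ⟩ := free_sep _ hw'
  let A : Q →* Equiv.Perm (Q × K) :=
    { toFun := fun y => (Equiv.mulLeft y).prodCongr (Equiv.refl K)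
      map_one' := by ext p <;> simp
      map_mul' := fun y z => by ext p <;> simp [mul_assoc] }
  have hA : ∀ y p, A y p = (y * p.1, p.2) := fun y p => rfl
  let S : Equiv.Perm (Q × K) :=
    { toFun := fun p => (p.1, κ (FreeGroup.of p.1⁻¹) * p.2)
      invFun := fun p => (p.1, (κ (FreeGroup.of p.1⁻¹))⁻¹ * p.2)
      left_inv := fun p => by simp
      right_inv := fun p => by simp }
  have hS : ∀ p, S p = (p.1, κ (FreeGroup.of p.1⁻¹) * p.2) := fun p => rfl
  let Θ : GG →* Equiv.Perm (Q × K) := liftG (A (q (gen 0))) (A (q (gen 1))) S (by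
    rw [← map_inv, ← map_inv, ← map_mul, ← map_mul, ← map_mul, ← map_mul, gen_rel, map_pow, map_pow])
  have hΘ : ∀ b : pr.range, Θ b = A (q b) := by
    rintro ⟨_, x, rfl⟩
    have : Θ.comp pr = (A.comp q).comp pr := by apply hom_ext <;> simp [pr, Θ]
    exact DFunLike.congr_fun this x
  have key : ∀ (v : FreeGroup pr.range) (l : K),
      Θ (io v) (1, l) = (1, κ (FreeGroup.map (fun b : pr.range => q b) v) * l) := by
    intro v
    induction v with
    | C1 => intro l; simp
    | of b =>
      intro l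
      rw [io_of, map_mul, map_mul, map_inv, hΘ, ← map_inv, Equiv.Perm.mul_apply,
        Equiv.Perm.mul_apply, hA, hA]
      have : Θ (gen 2) = S := by simp [Θ]
      rw [this, hS]
      simp
    | inv_of b ih =>
      intro l
      rw [map_inv, map_inv, Equiv.Perm.inv_eq_iff_eq, ih]
      simp
    | mul x y hx hy =>
      intro l
      rw [map_mul, map_mul, Equiv.Perm.mul_apply, hy, hx]
      simp [mul_assoc]
  refine ⟨_, inferInstance, inferInstance, Θ, fun h => hκ ?_⟩
  have := key w 1
  rw [h] at this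
  simpa using (congrArg Prod.snd this).symm

theorem sep_all (g : GG) (hg : g ≠ 1) : Sep g := by
  by_cases h : pr g = 1
  · obtain ⟨w, hw⟩ := nf g
    rw [h, mul_one] at hw
    rw [hw]
    apply sep_io
    rintro rfl
    exact hg (by simpa using hw)
  · obtain ⟨K, _, _, f, hf⟩ := sep_pr g h
    exact ⟨K, inferInstance, inferInstance, f.comp pr, hf⟩

theorem residuallyFinite_GG : Group.ResiduallyFinite GG :=
  Group.residuallyFinite_of_forall_exists_finite_monoidHom sep_all

theorem Sep.ne_one {g : GG} (h : Sep g) : g ≠ 1 := by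
  obtain ⟨K, _, _, f, hf⟩ := h
  rintro rfl
  exact hf (map_one f)

theorem torsionFree_GG (g : GG) (hg : g ≠ 1) : ¬ IsOfFinOrder g := by
  rw [isOfFinOrder_iff_pow_eq_one]
  rintro ⟨n, hn, h⟩
  have h1 : pr g = 1 := by
    obtain ⟨k, l, m, e⟩ := pr_nf g
    have h2 : pr g ^ n = 1 := by rw [← map_pow, h, map_one]
    have hkl : k = l := by
      let f : GG →* Multiplicative ℤ := liftG 1 (Multiplicative.ofAdd 1) 1 (by simp)
      have h3 := congrArg (fun x => Multiplicative.toAdd (f x)) h2
      simp only [e, f, map_mul, map_inv, map_pow, map_zpow, liftG_0, liftG_1, one_zpow, mul_one,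
        toAdd_pow, toAdd_mul, toAdd_inv, toAdd_ofAdd, map_one, toAdd_one, nsmul_eq_mul] at h3
      rcases mul_eq_zero.mp h3 with h4 | h4
      · omega
      · omega
    subst hkl
    have hm : m = 0 := by
      by_contra hm
      apply (sep_a (m * n) (mul_ne_zero hm (by omega))).ne_one
      have h4 : (gen 1 ^ k)⁻¹ * gen 0 ^ m * gen 1 ^ k =
          (gen 1 ^ k)⁻¹ * gen 0 ^ m * ((gen 1 ^ k)⁻¹)⁻¹ := by rw [inv_inv]
      rw [e, h4, conj_pow, conj_eq_one_iff] at h2
      rw [zpow_mul, zpow_natCast, h2]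
    rw [e, hm]
    simp
  obtain ⟨w, hw⟩ := nf g
  rw [h1, mul_one] at hw
  have hw1 : w ≠ 1 := by
    rintro rfl
    exact hg (by simpa using hw)
  have hwn : w ^ n ≠ 1 := fun h => hw1 ((pow_eq_one_iff_left hn.ne').mp h)
  apply (sep_io _ hwn).ne_one
  rw [map_pow, ← hw, h]

theorem not_free_GG : ¬ IsFreeGroup GG := by
  intro hf
  let e := IsFreeGroup.toFreeGroup GG
  have h : e (gen 1) * e (gen 0) * (e (gen 1))⁻¹ = e (gen 0) ^ 2 := by
    rw [← map_inv, ← map_mul, ← map_mul, gen_rel, map_pow]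
  have h2 := free_no_bs h
  apply (sep_a 1 one_ne_zero).ne_one
  rw [zpow_one]
  exact e.injective (by rw [h2, map_one])

theorem card_le_two {α : Type} [Fintype α] {r : FreeGroup α}
    (hr : ∀ f : α → Multiplicative (ZMod 2), FreeGroup.lift f r = 1)
    (e : GG ≃* PresentedGroup ({r} : Set (FreeGroup α))) : Fintype.card α ≤ 2 := by
  classical
  let χ : (α → Multiplicative (ZMod 2)) → GG →* Multiplicative (ZMod 2) := fun f =>
    (PresentedGroup.toGroup (f := f) (by rintro _ rfl; exact hr f)).comp e.toMonoidHom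
  have ha : ∀ f, χ f (gen 0) = 1 := by
    intro f
    have h := congrArg (χ f) gen_rel
    simp only [map_mul, map_inv, mul_inv_cancel_comm, pow_two] at h
    exact (left_eq_mul.mp h)
  have hinj : Function.Injective (fun f => (χ f (gen 1), χ f (gen 2))) := by
    intro f g h
    simp only [Prod.mk.injEq] at h
    have h2 : χ f = χ g := hom_ext (by rw [ha, ha]) h.1 h.2
    funext x
    have h3 := DFunLike.congr_fun h2 (e.symm (PresentedGroup.of x))
    simpa [χ] using h3
  have h4 := Fintype.card_le_of_injective _ hinj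
  simp only [Fintype.card_fun, Fintype.card_multiplicative, ZMod.card, Fintype.card_prod] at h4
  by_contra hc
  have : 2 ^ 3 ≤ 2 ^ Fintype.card α := Nat.pow_le_pow_right (by norm_num) (by omega)
  omega

theorem not_surface_GG : ¬ IsHyperbolicSurfaceGroup GG := by
  rintro (⟨g, hg, ⟨e⟩⟩ | ⟨k, hk, ⟨e⟩⟩)
  · have := card_le_two (fun f => by
      rw [map_list_prod, List.map_ofFn]
      apply List.prod_eq_one
      intro x hx
      obtain ⟨i, rfl⟩ := List.mem_ofFn.mp hx
      simp) e
    simp at this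
    omega
  · have := card_le_two (fun f => by
      rw [map_list_prod, List.map_ofFn]
      apply List.prod_eq_one
      intro x hx
      obtain ⟨i, rfl⟩ := List.mem_ofFn.mp hx
      simp only [Function.comp_apply, map_pow, FreeGroup.lift_apply_of]
      generalize f i = y
      revert y
      decide) e
    simp at this
    omega

theorem exact_GG (ω : GG × Fin 3 → ℂ)
    (h : ∀ g, ω (g, 1) + ω (g * gen 1, 0) = ω (g, 0) + ω (g * gen 0, 0) + ω (g * gen 0 * gen 0, 1)) :
    ∃ F : GG → ℂ, ∀ g i, ω (g, i) = F (g * gen i) - F g := by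
  let P : Fin 3 → Equiv.Perm (GG × ℂ) := fun i =>
    { toFun := fun p => (p.1 * (gen i)⁻¹, p.2 - ω (p.1 * (gen i)⁻¹, i))
      invFun := fun p => (p.1 * gen i, p.2 + ω (p.1, i))
      left_inv := fun p => by simp
      right_inv := fun p => by simp }
  have hP : ∀ i p, (P i)⁻¹ p = (p.1 * gen i, p.2 + ω (p.1, i)) := fun i p => rfl
  have hrel : P 1 * P 0 * (P 1)⁻¹ = P 0 ^ 2 := by
    rw [mul_inv_eq_iff_eq_mul, ← inv_inj, pow_two]
    simp only [mul_inv_rev]
    apply Equiv.ext
    intro p
    simp only [Equiv.Perm.mul_apply, hP]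
    have e : gen 1 * gen 0 = gen 0 * gen 0 * gen 1 := by
      rw [← pow_two, ← gen_rel]; group
    refine Prod.ext ?_ ?_
    · simp only [mul_assoc, e]
    · simp only
      linear_combination h p.1
  let θ : GG →* Equiv.Perm (GG × ℂ) := liftG (P 0) (P 1) (P 2) hrel
  have hθ : ∀ i, θ (gen i) = P i := by
    intro i
    fin_cases i <;> simp [θ]
  have hfst : ∀ u : GG, ∀ p, ((θ u)⁻¹ p).1 = p.1 * u := by
    intro u
    have hu : u ∈ Subgroup.closure (Set.range gen) := gen_closure ▸ Subgroup.mem_top u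
    induction hu using Subgroup.closure_induction with
    | mem y hy =>
      obtain ⟨i, rfl⟩ := hy
      intro p
      rw [hθ, hP]
    | one => intro p; simp
    | mul x y _ _ hx hy =>
      intro p
      rw [map_mul, mul_inv_rev, Equiv.Perm.mul_apply, hy, hx, mul_assoc]
    | inv x _ hx =>
      intro p
      have := hx (θ x p)
      rw [map_inv, inv_inv]
      rw [← Equiv.Perm.mul_apply, inv_mul_cancel, Equiv.Perm.one_apply] at this
      rw [this]
      simp
  refine ⟨fun u => ((θ u)⁻¹ (1, 0)).2, fun g i => ?_⟩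
  simp only [map_mul, mul_inv_rev, Equiv.Perm.mul_apply, hθ, hP, hfst, one_mul]
  ring

end Pool.Agent.Lib.MP_a85771_al
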