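import Pool.Agent.Lib.MP_a85771_al.VN

set_option autoImplicit false
set_option linter.unusedSectionVars false

open scoped InnerProductSpace Topology
open ContinuousLinearMap

namespace Pool.Agent.Lib.MP_a85771_al

section Asm

variable {H κ : Type} {E : Type} [NormedAddCommGroup E] [InnerProductSpace ℂ E]

theorem inj_mk (j : κ) : Function.Injective (fun h : H => (h, j)) := fun _ _ e => by simpa using e

/-- Extension by zero from one copy of `H`. -/
noncomputable def incl (j : κ) : L2 H →L[ℂ] L2 (H × κ) := adjoint (pull (fun h : H => (h, j)) (inj_mk j))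

open Classical in
theorem incl_apply (j : κ) (f : L2 H) (h : H) (j' : κ) :
    incl j f (h, j') = if j' = j then f h else 0 := by
  rw [← inner_dl, incl, adjoint_inner_right]
  split_ifs with hj
  · subst hj
    rw [← inner_dl h f]
    congr 1
    ext g
    simp only [pull_apply, dl_apply, Prod.mk.injEq, and_true]
  · have : pull (fun h : H => (h, j)) (inj_mk j) (dl (h, j')) = 0 := by
      ext g
      simp only [pull_apply, dl_apply, Prod.mk.injEq]
      rw [if_neg (fun e => hj e.2.symm)]
      simp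
    rw [this, inner_zero_left]

/-- Assembling finitely many operators into one. -/
noncomputable def asm [Fintype κ] (T : κ → E →L[ℂ] L2 H) : E →L[ℂ] L2 (H × κ) :=
  ∑ j : κ, incl j ∘L T j

theorem asm_apply [Fintype κ] (T : κ → E →L[ℂ] L2 H) (v : E) (h : H) (j : κ) :
    asm T v (h, j) = T j v h := by
  classical
  unfold asm
  rw [_root_.sum_apply, lp.coeFn_sum, Finset.sum_apply]
  simp only [comp_apply]
  rw [Finset.sum_eq_single j]
  · rw [incl_apply, if_pos rfl]
  · intro b _ hb
    rw [incl_apply, if_neg (Ne.symm hb)]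
  · simp

end Asm

section Graph

variable {H ι κ : Type} [Group H]

theorem comm_asm [Fintype κ] (T : κ → L2 (H × ι) →L[ℂ] L2 H)
    (hT : ∀ j h f g, T j (lam h f) g = T j f (h * g)) : Comm (asm T) := by
  intro h f
  ext ⟨g, j⟩
  rw [lam_apply, asm_apply, asm_apply, hT]

/-- The boundary operator of the Cayley graph. -/
noncomputable def bd [Fintype ι] (s : ι → H) : L2 (H × ι) →L[ℂ] L2 H :=
  ∑ i : ι, (pull (fun g : H => (g * (s i)⁻¹, i)) (fun _ _ e => by simpa using e) -
    pull (fun g : H => (g, i)) (inj_mk i))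

theorem bd_apply [Fintype ι] (s : ι → H) (f : L2 (H × ι)) (g : H) :
    bd s f g = ∑ i : ι, (f (g * (s i)⁻¹, i) - f (g, i)) := by
  unfold bd
  rw [_root_.sum_apply, lp.coeFn_sum, Finset.sum_apply]
  rfl

theorem mem_orth_boundaries [Fintype ι] (s : ι → H) (ω : L2 (H × ι)) (F : H → ℂ)
    (hω : ∀ g i, ω (g, i) = F (g * s i) - F g) : ω ∈ (boundaries s)ᗮ := by
  rw [Submodule.mem_orthogonal]
  intro u hu
  induction hu using Submodule.span_induction with
  | zero => simp
  | add x y _ _ hx hy => rw [inner_add_left, hx, hy, add_zero]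
  | smul c x _ hx => rw [inner_smul_left, hx, mul_zero]
  | mem z hz =>
    obtain ⟨hc, hfin⟩ := hz
    have hc' : ∀ g : H, ∑ i : ι, (z (g * (s i)⁻¹, i) - z (g, i)) = 0 := hc
    rw [hasSum_split (lp.hasSum_inner (𝕜 := ℂ) z ω)]
    have hsum : ∀ (φ : H → H × ι), Function.Injective φ → ∀ c : H → ℂ,
        Summable (fun g => c g * (starRingEnd ℂ) (z (φ g))) := by
      intro φ hφ c
      apply summable_of_hasFiniteSupport
      apply (hfin.preimage hφ.injOn).subset
      intro g hg
      simp only [Function.mem_support, ne_eq, mul_eq_zero, map_eq_zero, not_or] at hg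
      exact hg.2
    have e1 : ∀ i : ι, ∑' h : H, ⟪z (h, i), ω (h, i)⟫_ℂ =
        ∑' g : H, F g * (starRingEnd ℂ) (z (g * (s i)⁻¹, i) - z (g, i)) := by
      intro i
      have s1 := hsum (fun g => (g, i)) (inj_mk i) (fun g => F (g * s i))
      have s2 := hsum (fun g => (g, i)) (inj_mk i) F
      have s3 := hsum (fun g => (g * (s i)⁻¹, i)) (fun _ _ e => by simpa using e) F
      simp only [RCLike.inner_apply, hω, sub_mul, map_sub, mul_sub]
      rw [s1.tsum_sub s2, s3.tsum_sub s2]
      congr 1
      rw [← (Equiv.mulRight (s i)⁻¹).tsum_eq]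
      simp
    simp_rw [e1]
    rw [← Summable.tsum_finsetSum]
    · simp_rw [← Finset.mul_sum, ← map_sum, hc']
      simp
    · intro i _
      have s2 := hsum (fun g => (g, i)) (inj_mk i) F
      have s3 := hsum (fun g => (g * (s i)⁻¹, i)) (fun _ _ e => by simpa using e) F
      simp only [map_sub, mul_sub]
      exact s3.sub s2

/-- Integration along a path from `g` to `g * u`. -/
theorem exists_int (x : ι → H) (hx : Subgroup.closure (Set.range x) = ⊤) (u : H) :
    ∃ I : L2 (H × ι) →L[ℂ] L2 H, (∀ (k : H) f g, I (lam k f) g = I f (k * g)) ∧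
      ∀ (ω : L2 (H × ι)) (F : H → ℂ), (∀ g i, ω (g, i) = F (g * x i) - F g) →
        ∀ g, I ω g = F (g * u) - F g := by
  have hu : u ∈ Subgroup.closure (Set.range x) := hx ▸ Subgroup.mem_top u
  induction hu using Subgroup.closure_induction with
  | mem y hy =>
    obtain ⟨i, rfl⟩ := hy
    exact ⟨pull (fun g => (g, i)) (inj_mk i), fun k f g => rfl, fun ω F h g => h g i⟩
  | one => exact ⟨0, fun k f g => rfl, fun ω F h g => by simp⟩
  | mul y z _ _ hy hz =>
    obtain ⟨I, hI1, hI2⟩ := hy
    obtain ⟨K, hK1, hK2⟩ := hz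
    refine ⟨I + pull (fun g => g * y) (mul_left_injective y) ∘L K, fun k f g => ?_,
      fun ω F h g => ?_⟩
    · change I (lam k f) g + K (lam k f) (g * y) = I f (k * g) + K f (k * g * y)
      rw [hI1, hK1, mul_assoc]
    · change I ω g + K ω (g * y) = _
      rw [hI2 ω F h, hK2 ω F h, mul_assoc]
      ring
  | inv y _ hy =>
    obtain ⟨I, hI1, hI2⟩ := hy
    refine ⟨-(pull (fun g => g * y⁻¹) (mul_left_injective y⁻¹) ∘L I), fun k f g => ?_,
      fun ω F h g => ?_⟩
    · change -(I (lam k f) (g * y⁻¹)) = -(I f (k * g * y⁻¹))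
      rw [hI1, mul_assoc]
    · change -(I ω (g * y⁻¹)) = _
      rw [hI2 ω F h]
      simp

end Graph

section Main

variable {G α ι : Type} [Group G] [Fintype α] [Fintype ι]

/-- Lower bound for the first `L²`-Betti number of a group embedded with finite index in a group whose
cocycles are cut out by one equivariant operator. -/
theorem b1L2_lower_gen (x : α → G) (hx : Subgroup.closure (Set.range x) = ⊤)
    (R : L2 (G × α) →L[ℂ] L2 G) (hR : ∀ (k : G) f g, R (lam k f) g = R f (k * g))
    (hex : ∀ ω, R ω = 0 → ∃ F : G → ℂ, ∀ g i, ω (g, i) = F (g * x i) - F g)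
    {H T : Type} [Group H] [Fintype T] (j : H →* G) (hj : Function.Injective j) (r : T → G)
    (t₀ : T) (ht₀ : r t₀ = 1) (e : G ≃ H × T)
    (he : ∀ (h : H) (g : G), e (j h * g) = (h * (e g).1, (e g).2))
    (he2 : ∀ g : G, j (e g).1 * r (e g).2 = g)
    (s : ι → H) (hs : Subgroup.closure (Set.range s) = ⊤) :
    (Fintype.card T : ℝ) * (Fintype.card α - 2) ≤ b1L2 s := by
  classical
  choose I hI1 hI2 using exists_int x hx
  let J : L2 (H × (T × α)) →L[ℂ] L2 (G × α) :=
    pull (fun p => ((e p.1).1, ((e p.1).2, p.2))) (by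
      rintro ⟨a, b⟩ ⟨c, d⟩ h
      simp only [Prod.mk.injEq] at h
      exact Prod.ext (e.injective (Prod.ext h.1 h.2.1)) h.2.2)
  have hJ : ∀ (h : H) f, J (lam h f) = lam (j h) (J f) := by
    intro h f
    ext ⟨g, i⟩
    change f (h * (e g).1, ((e g).2, i)) = f ((e (j h * g)).1, ((e (j h * g)).2, i))
    rw [he]
  have hJ0 : ∀ f, J f = 0 → f = 0 := by
    intro f hf
    ext ⟨h, t, i⟩
    have : J f (e.symm (h, t), i) = 0 := by rw [hf]; rfl
    change f ((e (e.symm (h, t))).1, ((e (e.symm (h, t))).2, i)) = 0 at this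
    rw [e.apply_symm_apply] at this
    exact this
  let res : G → L2 G →L[ℂ] L2 H := fun u => pull (fun h : H => j h * u)
    (fun a b h => hj (mul_left_injective u h))
  let Φ : L2 (H × (T × α)) →L[ℂ] L2 (H × ι) := asm fun i => res 1 ∘L I (j (s i)) ∘L J
  have hΦa : ∀ f h i, Φ f (h, i) = I (j (s i)) (J f) (j h) := by
    intro f h i
    rw [asm_apply]
    change I (j (s i)) (J f) (j h * 1) = _
    rw [mul_one]
  have hΦ : Comm Φ := by
    intro h f
    ext ⟨g, i⟩
    rw [lam_apply, hΦa, hΦa, hJ, hI1, map_mul]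
  let A : L2 (H × (T × α)) →L[ℂ] L2 (H × (T ⊕ {t : T // t ≠ t₀} ⊕ Unit)) :=
    asm fun k => match k with
      | Sum.inl t => res (r t) ∘L R ∘L J
      | Sum.inr (Sum.inl t) => res 1 ∘L I (r t) ∘L J
      | Sum.inr (Sum.inr _) => bd s ∘L Φ
  have hA : Comm A := by
    apply comm_asm
    rintro (t | t | u) h f g
    · change R (J (lam h f)) (j g * r t) = R (J f) (j (h * g) * r t)
      rw [hJ, hR, map_mul, mul_assoc]
    · change I (r t) (J (lam h f)) (j g * 1) = I (r t) (J f) (j (h * g) * 1)
      rw [hJ, hI1, map_mul, mul_assoc]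
    · change bd s (Φ (lam h f)) g = bd s (Φ f) (h * g)
      rw [hΦ, bd_apply, bd_apply]
      simp [mul_assoc]
  have hAF : ∀ f, A f = 0 → ∃ F : G → ℂ, ∀ g i, J f (g, i) = F (g * x i) - F g := by
    intro f hf
    apply hex
    ext g
    have : A f ((e g).1, Sum.inl (e g).2) = 0 := by rw [hf]; rfl
    rw [asm_apply] at this
    change R (J f) (j (e g).1 * r (e g).2) = 0 at this
    rw [he2] at this
    exact this
  have key := dim_lower hA hΦ (cycles s ⊓ (boundaries s)ᗮ) (by
    intro f hf
    obtain ⟨F, hF⟩ := hAF f hf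
    constructor
    · intro g
      have : A f (g, Sum.inr (Sum.inr ())) = 0 := by rw [hf]; rfl
      rw [asm_apply] at this
      change bd s (Φ f) g = 0 at this
      rw [bd_apply] at this
      exact this
    · apply mem_orth_boundaries s _ (fun h => F (j h))
      intro g i
      rw [hΦa, hI2 _ _ F hF, map_mul]) (by
    intro f hf hΦf
    obtain ⟨F, hF⟩ := hAF f hf
    have c1 : ∀ (k : H), ∀ h : H, F (j (h * k)) = F (j h) := by
      intro k
      have hk : k ∈ Subgroup.closure (Set.range s) := hs ▸ Subgroup.mem_top k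
      induction hk using Subgroup.closure_induction with
      | mem y hy =>
        obtain ⟨i, rfl⟩ := hy
        intro h
        have : Φ f (h, i) = 0 := by rw [hΦf]; rfl
        rw [hΦa, hI2 _ _ F hF] at this
        rw [map_mul]
        exact sub_eq_zero.mp this
      | one => intro h; simp
      | mul y z _ _ hy hz =>
        intro h
        rw [← mul_assoc, hz, hy]
      | inv y _ hy =>
        intro h
        rw [← hy (h * y⁻¹), inv_mul_cancel_right]
    have c2 : ∀ (h : H) (t : T), F (j h * r t) = F (j h) := by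
      intro h t
      by_cases ht : t = t₀
      · rw [ht, ht₀, mul_one]
      · have : A f (h, Sum.inr (Sum.inl ⟨t, ht⟩)) = 0 := by rw [hf]; rfl
        rw [asm_apply] at this
        change I (r t) (J f) (j h * 1) = 0 at this
        rw [mul_one, hI2 _ _ F hF] at this
        exact sub_eq_zero.mp this
    have c3 : ∀ g, F g = F 1 := by
      intro g
      rw [← he2 g, c2]
      simpa using c1 (e g).1 1
    apply hJ0
    ext ⟨g, i⟩
    rw [hF, c3, c3 g]
    simp)
  have hpos : 1 ≤ Fintype.card T := Fintype.card_pos_iff.mpr ⟨t₀⟩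
  have hc2 : Fintype.card {t : T // t ≠ t₀} = Fintype.card T - 1 := by
    rw [Fintype.card_subtype_compl, Fintype.card_subtype_eq]
  simp only [Fintype.card_prod, Fintype.card_sum, Fintype.card_unit, hc2] at key
  push_cast [Nat.cast_sub hpos] at key
  unfold b1L2
  linarith

theorem b1L2_lower (x : α → G) (hx : Subgroup.closure (Set.range x) = ⊤)
    (R : L2 (G × α) →L[ℂ] L2 G) (hR : ∀ (k : G) f g, R (lam k f) g = R f (k * g))
    (hex : ∀ ω, R ω = 0 → ∃ F : G → ℂ, ∀ g i, ω (g, i) = F (g * x i) - F g)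
    (H : Subgroup G) [H.FiniteIndex] (s : ι → H) (hs : Subgroup.closure (Set.range s) = ⊤) :
    (H.index : ℝ) * (Fintype.card α - 2) ≤ b1L2 s := by
  obtain ⟨T, hT, h1T⟩ := H.exists_isComplement_right 1
  have hTfin : Finite T := hT.finite_right
  let _ : Fintype T := Fintype.ofFinite T
  have hcard : Fintype.card T = H.index := by rw [← Nat.card_eq_fintype_card, hT.card_right]
  rw [← hcard]
  exact b1L2_lower_gen x hx R hR hex H.subtype H.subtype_injective Subtype.val ⟨1, h1T⟩ rfl
    hT.equiv (fun h g => hT.equiv_mul_left h g) (fun g => hT.equiv_fst_mul_equiv_snd g) s hs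

theorem b1L2_lower_self (x : α → G) (hx : Subgroup.closure (Set.range x) = ⊤)
    (R : L2 (G × α) →L[ℂ] L2 G) (hR : ∀ (k : G) f g, R (lam k f) g = R f (k * g))
    (hex : ∀ ω, R ω = 0 → ∃ F : G → ℂ, ∀ g i, ω (g, i) = F (g * x i) - F g)
    (s : ι → G) (hs : Subgroup.closure (Set.range s) = ⊤) :
    (Fintype.card α : ℝ) - 2 ≤ b1L2 s := by
  have := b1L2_lower_gen x hx R hR hex (MonoidHom.id G) Function.injective_id (fun _ : Unit => 1)
    () rfl (Equiv.prodPUnit G).symm (fun h g => rfl) (fun g => by simp) s hs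
  simpa using this

end Main

end Pool.Agent.Lib.MP_a85771_al
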