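import Pool.Agent.Lib.MP_a85771_al.Defs

set_option autoImplicit false
set_option linter.unusedSectionVars false

open scoped InnerProductSpace Topology
open ContinuousLinearMap Filter

namespace Pool.Agent.Lib.MP_a85771_al

section Abstract

variable {E F : Type} [NormedAddCommGroup E] [InnerProductSpace ℂ E] [CompleteSpace E]
  [NormedAddCommGroup F] [InnerProductSpace ℂ F] [CompleteSpace F]

theorem re_inner_self (x : E) : (⟪x, x⟫_ℂ).re = ‖x‖ ^ 2 := by
  have := inner_self_eq_norm_sq (𝕜 := ℂ) x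
  simpa using this

theorem re_inner_le (x y : E) : (⟪x, y⟫_ℂ).re ≤ ‖x‖ * ‖y‖ :=
  (Complex.re_le_norm _).trans (norm_inner_le_norm x y)

theorem energy (A : E →L[ℂ] F) (ε : ℝ) (ξ v : E) (h : adjoint A (A ξ) + (ε : ℂ) • ξ = v) :
    ‖A ξ‖ ^ 2 + ε * ‖ξ‖ ^ 2 = (⟪v, ξ⟫_ℂ).re := by
  rw [← h, inner_add_left, adjoint_inner_left, inner_smul_left, Complex.add_re, re_inner_self]
  simp [← re_inner_self]

theorem upper_bound (A : E →L[ℂ] F) (W : Submodule ℂ F) [W.HasOrthogonalProjection]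
    (hW : ∀ f, A f ∈ W) (ε : ℝ) (hε : 0 ≤ ε) (ξ : E) (y : F)
    (h : adjoint A (A ξ) + (ε : ℂ) • ξ = adjoint A y) :
    (⟪y, A ξ⟫_ℂ).re ≤ (⟪y, W.starProjection y⟫_ℂ).re := by
  have h1 := energy A ε ξ _ h
  rw [adjoint_inner_left] at h1
  have key : ∀ w ∈ W, ⟪y, w⟫_ℂ = ⟪W.starProjection y, w⟫_ℂ := by
    intro w hw
    have := W.starProjection_inner_eq_zero y w hw
    rw [inner_sub_left] at this
    exact sub_eq_zero.mp this
  rw [key _ (W.starProjection_apply_mem y), re_inner_self]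
  rw [key _ (hW ξ)] at h1 ⊢
  have h2 := re_inner_le (W.starProjection y) (A ξ)
  have h3 : 0 ≤ ε * ‖ξ‖ ^ 2 := by positivity
  have h4 : ‖A ξ‖ ≤ ‖W.starProjection y‖ := by
    by_contra hc
    push Not at hc
    nlinarith [norm_nonneg (W.starProjection y), norm_nonneg (A ξ)]
  nlinarith [norm_nonneg (W.starProjection y), norm_nonneg (A ξ)]

theorem lower_bound (A : E →L[ℂ] F) (x p : E) (hp : p ∈ A.kerᗮ) (hxp : A (x - p) = 0)
    (η : ℝ) (hη : 0 < η) :
    ∀ᶠ ε : ℝ in 𝓝[>] 0, ∀ u : E, adjoint A (A u) + (ε : ℂ) • u = adjoint A (A x) →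
      (⟪x, p⟫_ℂ).re - η ≤ (⟪x, u⟫_ℂ).re := by
  have hrange : ∀ z, adjoint A z ∈ A.kerᗮ := by
    intro z
    rw [Submodule.mem_orthogonal]
    intro k hk
    have hk' : A k = 0 := hk
    rw [adjoint_inner_right, hk', inner_zero_left]
  have key : ∀ w ∈ A.kerᗮ, ⟪x, w⟫_ℂ = ⟪p, w⟫_ℂ := by
    intro w hw
    have := (Submodule.mem_orthogonal _ _).mp hw (x - p) hxp
    rw [inner_sub_left] at this
    exact sub_eq_zero.mp this
  have hp' := hp
  rw [A.orthogonal_ker] at hp'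
  have hpos : 0 < η / (2 * (‖p‖ + 1)) := by positivity
  obtain ⟨_, ⟨z, rfl⟩, hz⟩ := Metric.mem_closure_iff.mp hp' _ hpos
  rw [dist_eq_norm] at hz
  set c : ℝ := η / (2 * (‖z‖ + 1) * (‖p‖ + 1)) with hc
  have hcpos : 0 < c := by positivity
  have hev : ∀ᶠ ε : ℝ in 𝓝[>] 0, ε ∈ Set.Ioo 0 (c ^ 2) := Ioo_mem_nhdsGT (by positivity)
  filter_upwards [hev] with ε hε u hu
  obtain ⟨hε0, hεc⟩ := hε
  have huK : u ∈ A.kerᗮ := by
    have h1 : (ε : ℂ) • u = adjoint A (A x - A u) := by rw [map_sub, ← hu]; abel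
    have h2 : u = (ε : ℂ)⁻¹ • adjoint A (A x - A u) := by
      rw [← h1, smul_smul, inv_mul_cancel₀ (by exact_mod_cast hε0.ne'), one_smul]
    rw [h2]
    exact Submodule.smul_mem _ _ (hrange _)
  have hAp : A p = A x := by rw [map_sub] at hxp; exact (sub_eq_zero.mp hxp).symm
  have hw : adjoint A (A (p - u)) + (ε : ℂ) • (p - u) = (ε : ℂ) • p := by
    rw [map_sub, map_sub, hAp, ← hu, smul_sub]; abel
  have h1 := energy A ε _ _ hw
  rw [inner_smul_left] at h1
  have h1' : ‖A (p - u)‖ ^ 2 + ε * ‖p - u‖ ^ 2 = ε * (⟪p, p - u⟫_ℂ).re := by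
    rw [h1, Complex.conj_ofReal, Complex.re_ofReal_mul]
  have h2 := re_inner_le p (p - u)
  have h3 : ‖p - u‖ ≤ ‖p‖ := by
    by_contra hcon
    push Not at hcon
    have : ‖p - u‖ ^ 2 ≤ ‖p‖ * ‖p - u‖ := by
      have h5 : ε * ‖p - u‖ ^ 2 ≤ ε * (‖p‖ * ‖p - u‖) := by nlinarith [sq_nonneg ‖A (p - u)‖]
      exact le_of_mul_le_mul_left h5 hε0
    nlinarith [norm_nonneg p]
  have h4 : ‖A (p - u)‖ ≤ c * ‖p‖ := by
    have h5 : ‖p‖ * ‖p - u‖ ≤ ‖p‖ * ‖p‖ := mul_le_mul_of_nonneg_left h3 (norm_nonneg _)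
    have h6 : ‖A (p - u)‖ ^ 2 ≤ (c * ‖p‖) ^ 2 := by
      have h7 : 0 ≤ ε * ‖p - u‖ ^ 2 := by positivity
      have h8 : ε * (⟪p, p - u⟫_ℂ).re ≤ ε * (‖p‖ * ‖p‖) :=
        mul_le_mul_of_nonneg_left (h2.trans h5) hε0.le
      have h9 : ε * (‖p‖ * ‖p‖) ≤ c ^ 2 * (‖p‖ * ‖p‖) :=
        mul_le_mul_of_nonneg_right hεc.le (by positivity)
      nlinarith
    exact (pow_le_pow_iff_left₀ (norm_nonneg _) (by positivity) two_ne_zero).mp h6
  have h5 : (⟪p, p - u⟫_ℂ).re ≤ η := by
    have e1 : ⟪p, p - u⟫_ℂ = ⟪p - adjoint A z, p - u⟫_ℂ + ⟪z, A (p - u)⟫_ℂ := by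
      rw [inner_sub_left, adjoint_inner_left]; ring
    rw [e1, Complex.add_re]
    have e2 := re_inner_le (p - adjoint A z) (p - u)
    have e3 := re_inner_le z (A (p - u))
    have e4 : ‖p - adjoint A z‖ * ‖p - u‖ ≤ η / 2 := by
      have hz' : ‖p - adjoint A z‖ ≤ η / (2 * (‖p‖ + 1)) := le_of_lt hz
      calc ‖p - adjoint A z‖ * ‖p - u‖ ≤ η / (2 * (‖p‖ + 1)) * (‖p‖ + 1) :=
            mul_le_mul hz' (by linarith) (norm_nonneg _) hpos.le
        _ = η / 2 := by field_simp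
    have e5 : ‖z‖ * ‖A (p - u)‖ ≤ η / 2 := by
      calc ‖z‖ * ‖A (p - u)‖ ≤ (‖z‖ + 1) * (c * (‖p‖ + 1)) := by
            apply mul_le_mul (by linarith) (h4.trans _) (norm_nonneg _) (by positivity)
            exact mul_le_mul_of_nonneg_left (by linarith) hcpos.le
        _ = η / 2 := by rw [hc]; field_simp
    linarith
  rw [key _ hp, key _ huK]
  rw [inner_sub_right, Complex.sub_re] at h5
  linarith

theorem exists_solver (A : E →L[ℂ] F) (ε : ℝ) (hε : 0 < ε) :
    ∃ B : E →L[ℂ] E, (∀ v, adjoint A (A (B v)) + (ε : ℂ) • B v = v) ∧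
      ∀ ξ, B (adjoint A (A ξ) + (ε : ℂ) • ξ) = ξ := by
  set M : E →L[ℂ] E := adjoint A ∘L A + (ε : ℂ) • (1 : E →L[ℂ] E) with hM
  have hMa : ∀ ξ, M ξ = adjoint A (A ξ) + (ε : ℂ) • ξ := fun ξ => by simp [hM]
  have hu : IsUnit M := by
    apply isUnit_of_forall_le_norm_inner_map M (c := ⟨ε, hε.le⟩) hε
    intro ξ
    have h1 := energy A ε ξ _ (hMa ξ).symm
    have h2 := Complex.re_le_norm ⟪M ξ, ξ⟫_ℂ
    have h3 : 0 ≤ ‖A ξ‖ ^ 2 := by positivity
    change ‖ξ‖ ^ 2 * ε ≤ _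
    linarith
  obtain ⟨U, hU⟩ := hu
  refine ⟨(U⁻¹ : (E →L[ℂ] E)ˣ), fun v => ?_, fun ξ => ?_⟩
  · rw [← hMa, ← hU]
    change ((U : E →L[ℂ] E) * (U⁻¹ : (E →L[ℂ] E)ˣ)) v = v
    simp
  · rw [← hMa, ← hU]
    change (((U⁻¹ : (E →L[ℂ] E)ˣ) : E →L[ℂ] E) * (U : E →L[ℂ] E)) ξ = ξ
    simp

end Abstract

section Pull

variable {X Y : Type}

/-- Pull-back of square summable functions along an injective map. -/
noncomputable def pull (φ : X → Y) (hφ : Function.Injective φ) : L2 Y →L[ℂ] L2 X :=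
  LinearMap.mkContinuous
    { toFun := fun f => ⟨fun x => f (φ x),
        memℓp_gen (((lp.memℓp f).summable (by norm_num)).comp_injective hφ)⟩
      map_add' := fun _ _ => rfl
      map_smul' := fun _ _ => rfl } 1 (by
      intro f
      rw [one_mul]
      apply lp.norm_le_of_tsum_le (by norm_num) (norm_nonneg _)
      rw [lp.norm_rpow_eq_tsum (by norm_num) f]
      have hs := (lp.memℓp f).summable (by norm_num)
      exact Summable.tsum_le_tsum_of_inj φ hφ (fun c _ => by positivity) (fun x => le_rfl)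
        (hs.comp_injective hφ) hs)

@[simp] theorem pull_apply (φ : X → Y) (hφ : Function.Injective φ) (f : L2 Y) (x : X) :
    pull φ hφ f x = f (φ x) := rfl

theorem inner_dl (x : X) (f : L2 X) : ⟪dl x, f⟫_ℂ = f x := by
  classical
  unfold dl
  rw [lp.inner_single_left]
  simp

open Classical in
theorem dl_apply (x y : X) : dl x y = if y = x then 1 else 0 := by
  unfold dl
  rw [lp.single_apply, Pi.single_apply]

theorem hasSum_dl (f : L2 X) : HasSum (fun x => f x • dl x) f := by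
  classical
  have := lp.hasSum_single (p := 2) (by simp) f
  convert this using 2 with x
  unfold dl
  rw [← lp.single_smul]
  simp

end Pull

section Equivariant

variable {H ι κ μ : Type} [Group H]

/-- Left translation. -/
noncomputable def lam (h : H) : L2 (H × ι) →L[ℂ] L2 (H × ι) :=
  pull (fun p => (h * p.1, p.2)) (by
    rintro ⟨a, b⟩ ⟨c, d⟩ e
    simpa using e)

@[simp] theorem lam_apply (h : H) (f : L2 (H × ι)) (p : H × ι) : lam h f p = f (h * p.1, p.2) := rfl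

theorem lam_lam_inv (h : H) (f : L2 (H × ι)) : lam h (lam h⁻¹ f) = f := by
  ext p; simp

theorem lam_inv_lam (h : H) (f : L2 (H × ι)) : lam h⁻¹ (lam h f) = f := by
  ext p; simp

theorem inner_lam (h : H) (f g : L2 (H × ι)) : ⟪lam h f, lam h g⟫_ℂ = ⟪f, g⟫_ℂ := by
  rw [lp.inner_eq_tsum, lp.inner_eq_tsum]
  exact Equiv.tsum_eq ((Equiv.mulLeft h).prodCongr (Equiv.refl ι)) (fun p => ⟪f p, g p⟫_ℂ)

theorem inner_lam_left (h : H) (f g : L2 (H × ι)) : ⟪lam h f, g⟫_ℂ = ⟪f, lam h⁻¹ g⟫_ℂ := by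
  rw [← inner_lam h f, lam_lam_inv]

/-- Commuting with left translations. -/
def Comm (T : L2 (H × ι) →L[ℂ] L2 (H × κ)) : Prop := ∀ h f, T (lam h f) = lam h (T f)

theorem Comm.adjoint {T : L2 (H × ι) →L[ℂ] L2 (H × κ)} (hT : Comm T) : Comm (adjoint T) := by
  intro h f
  apply ext_inner_right ℂ
  intro v
  rw [adjoint_inner_left, inner_lam_left, inner_lam_left, adjoint_inner_left, hT]

theorem Comm.comp {T : L2 (H × κ) →L[ℂ] L2 (H × μ)} {S : L2 (H × ι) →L[ℂ] L2 (H × κ)}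
    (hT : Comm T) (hS : Comm S) : Comm (T ∘L S) := by
  intro h f
  simp only [comp_apply]
  rw [hS, hT]

theorem dl_eq_lam (h : H) (i : ι) : dl (h, i) = lam h⁻¹ (dl ((1 : H), i)) := by
  ext p
  obtain ⟨a, b⟩ := p
  simp only [lam_apply, dl_apply]
  have : (a, b) = (h, i) ↔ (h⁻¹ * a, b) = (1, i) := by
    simp only [Prod.mk.injEq, inv_mul_eq_one, eq_comm (a := h)]
  by_cases hc : (a, b) = (h, i)
  · rw [if_pos hc, if_pos (this.mp hc)]
  · rw [if_neg hc, if_neg (fun e => hc (this.mpr e))]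

theorem Comm.hasSum {A : L2 (H × ι) →L[ℂ] L2 (H × κ)} (hA : Comm A) (v : L2 (H × ι)) (j : κ) :
    HasSum (fun p : H × ι => v p * A (dl (1, p.2)) (p.1⁻¹, j)) (A v (1, j)) := by
  have h1 := ((innerSL ℂ (dl ((1 : H), j))) ∘L A).hasSum (hasSum_dl v)
  simp only [comp_apply, innerSL_apply_apply, inner_dl, map_smul, smul_eq_mul] at h1
  have e : ∀ p : H × ι, A (dl p) (1, j) = A (dl (1, p.2)) (p.1⁻¹, j) := by
    rintro ⟨a, b⟩
    rw [dl_eq_lam a b, hA]
    simp
  simpa only [e] using h1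

theorem hasSum_split [Fintype ι] {f : H × ι → ℂ} {a : ℂ} (hf : HasSum f a) :
    a = ∑ i, ∑' h, f (h, i) := by
  have h1 : HasSum (fun q : ι × H => f (q.2, q.1)) a :=
    (Equiv.prodComm ι H).hasSum_iff.mpr hf
  have h2 : ∀ i : ι, HasSum (fun h : H => f (h, i)) (∑' h, f (h, i)) := fun i =>
    (hf.summable.comp_injective (i := fun h : H => (h, i))
      (fun x y e => by simpa using e)).hasSum
  exact (h1.prod_fiberwise h2).unique (hasSum_fintype _)

theorem trace_comm [Fintype ι] [Fintype κ] {A : L2 (H × ι) →L[ℂ] L2 (H × κ)}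
    {S : L2 (H × κ) →L[ℂ] L2 (H × ι)} (hA : Comm A) (hS : Comm S) :
    ∑ j : κ, A (S (dl (1, j))) (1, j) = ∑ i : ι, S (A (dl (1, i))) (1, i) := by
  simp_rw [fun j : κ => hasSum_split (hA.hasSum (S (dl (1, j))) j),
    fun i : ι => hasSum_split (hS.hasSum (A (dl (1, i))) i)]
  rw [Finset.sum_comm]
  refine Finset.sum_congr rfl fun i _ => Finset.sum_congr rfl fun j _ => ?_
  rw [← (Equiv.inv H).tsum_eq]
  refine tsum_congr fun h => ?_
  simp [mul_comm]

theorem vnDim_eq [Fintype ι] (V : Submodule ℂ (L2 (H × ι))) :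
    vnDim V = ∑ i : ι, (⟪dl ((1 : H), i), V.topologicalClosure.starProjection (dl (1, i))⟫_ℂ).re := by
  rfl

theorem proj_closed {E : Type} [NormedAddCommGroup E] [InnerProductSpace ℂ E] [CompleteSpace E]
    (K : Submodule ℂ E) [K.HasOrthogonalProjection] (x : E) :
    K.topologicalClosure.starProjection x = K.starProjection x := by
  apply Submodule.eq_starProjection_of_mem_orthogonal
  · exact K.le_topologicalClosure (K.starProjection_apply_mem x)
  · rw [← Submodule.orthogonal_orthogonal_eq_closure, Submodule.triorthogonal_eq_orthogonal]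
    exact K.sub_starProjection_mem_orthogonal x

/-- The key inequality: an equivariant operator does not decrease dimension on the orthogonal
complement of its kernel. -/
theorem dim_ker_orth_le [Fintype ι] [Fintype κ] {A : L2 (H × ι) →L[ℂ] L2 (H × κ)} (hA : Comm A)
    (W : Submodule ℂ (L2 (H × κ))) (hW : ∀ f, A f ∈ W) : vnDim (A.kerᗮ) ≤ vnDim W := by
  apply le_of_forall_pos_le_add
  intro η hη
  have hη' : 0 < η / (Fintype.card ι + 1) := by positivity
  have hev : ∀ᶠ ε : ℝ in 𝓝[>] 0, ∀ i : ι, ∀ u, adjoint A (A u) + (ε : ℂ) • u =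
      adjoint A (A (dl (1, i))) →
      (⟪dl ((1 : H), i), A.kerᗮ.starProjection (dl (1, i))⟫_ℂ).re - η / (Fintype.card ι + 1) ≤
        (⟪dl ((1 : H), i), u⟫_ℂ).re := by
    rw [eventually_all]
    intro i
    apply lower_bound A _ _ (Submodule.starProjection_apply_mem _ _) _ _ hη'
    have := (A.kerᗮ).sub_starProjection_mem_orthogonal (dl ((1 : H), i))
    rw [Submodule.orthogonal_orthogonal] at this
    exact this
  obtain ⟨ε, hε, hε0⟩ := (hev.and self_mem_nhdsWithin).exists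
  have hε0' : 0 < ε := hε0
  obtain ⟨B, hB1, hB2⟩ := exists_solver A ε hε0'
  have hB : Comm B := by
    intro h f
    have e : lam h f = adjoint A (A (lam h (B f))) + (ε : ℂ) • lam h (B f) := by
      rw [hA, hA.adjoint, ← map_smul, ← map_add, hB1]
    rw [e, hB2]
  have htr := trace_comm hA (hB.comp hA.adjoint)
  have h1 : vnDim (A.kerᗮ) - Fintype.card ι * (η / (Fintype.card ι + 1)) ≤
      (∑ i : ι, (B ∘L adjoint A) (A (dl (1, i))) (1, i)).re := by
    rw [vnDim_eq, Complex.re_sum]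
    have : (Fintype.card ι : ℝ) * (η / (Fintype.card ι + 1)) =
        ∑ _i : ι, η / (Fintype.card ι + 1) := by simp
    rw [this, ← Finset.sum_sub_distrib]
    refine Finset.sum_le_sum fun i _ => ?_
    rw [proj_closed, ← inner_dl]
    exact hε i _ (hB1 _)
  have h2 : (∑ j : κ, A ((B ∘L adjoint A) (dl (1, j))) (1, j)).re ≤ vnDim W := by
    rw [vnDim_eq, Complex.re_sum]
    refine Finset.sum_le_sum fun j _ => ?_
    rw [← inner_dl]
    exact upper_bound A _ (fun f => W.le_topologicalClosure (hW f)) ε hε0'.le _ _ (hB1 _)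
  rw [htr] at h2
  have h3 : (Fintype.card ι : ℝ) * (η / (Fintype.card ι + 1)) ≤ η := by
    rw [← mul_div_assoc, div_le_iff₀ (by positivity)]
    nlinarith
  linarith

theorem inner_dl_self {X : Type} (x : X) : ⟪dl x, dl x⟫_ℂ = 1 := by
  rw [inner_dl, dl_apply]; simp

theorem vnDim_add_orth [Fintype ι] (K : Submodule ℂ (L2 (H × ι))) [K.HasOrthogonalProjection] :
    vnDim K + vnDim Kᗮ = Fintype.card ι := by
  rw [vnDim_eq, vnDim_eq, ← Finset.sum_add_distrib]
  have : ∀ i : ι, (⟪dl ((1 : H), i), K.topologicalClosure.starProjection (dl (1, i))⟫_ℂ).re +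
      (⟪dl ((1 : H), i), Kᗮ.topologicalClosure.starProjection (dl (1, i))⟫_ℂ).re = 1 := by
    intro i
    rw [proj_closed, proj_closed, ← Complex.add_re, ← inner_add_right,
      Submodule.starProjection_add_starProjection_orthogonal, inner_dl_self]
    simp
  simp [this]

theorem vnDim_top [Fintype ι] : vnDim (⊤ : Submodule ℂ (L2 (H × ι))) = Fintype.card ι := by
  rw [vnDim_eq]
  have : ∀ i : ι, (⟪dl ((1 : H), i),
      (⊤ : Submodule ℂ (L2 (H × ι))).topologicalClosure.starProjection (dl (1, i))⟫_ℂ).re = 1 := by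
    intro i
    rw [proj_closed, Submodule.starProjection_top, id_apply, inner_dl_self]
    simp
  simp [this]

theorem Comm.proj_ker {A : L2 (H × ι) →L[ℂ] L2 (H × κ)} (hA : Comm A) :
    Comm (A.ker.starProjection) := by
  have hinv : ∀ h : H, ∀ f ∈ A.ker, lam h f ∈ A.ker := by
    intro h f hf
    have hf' : A f = 0 := hf
    change A (lam h f) = 0
    rw [hA, hf', map_zero]
  intro h f
  apply Submodule.eq_starProjection_of_mem_orthogonal
  · exact hinv h _ (Submodule.starProjection_apply_mem _ _)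
  · rw [Submodule.mem_orthogonal']
    intro u hu
    rw [← map_sub, inner_lam_left]
    exact A.ker.starProjection_inner_eq_zero f _ (hinv _ u hu)

/-- Two step dimension count. -/
theorem dim_lower [Fintype ι] [Fintype κ] [Fintype μ] {A : L2 (H × ι) →L[ℂ] L2 (H × κ)}
    {T : L2 (H × ι) →L[ℂ] L2 (H × μ)} (hA : Comm A) (hT : Comm T)
    (W : Submodule ℂ (L2 (H × μ))) (hW : ∀ f, A f = 0 → T f ∈ W)
    (hinj : ∀ f, A f = 0 → T f = 0 → f = 0) :
    (Fintype.card ι : ℝ) - Fintype.card κ ≤ vnDim W := by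
  have h1 := dim_ker_orth_le hA ⊤ (fun _ => Submodule.mem_top)
  rw [vnDim_top] at h1
  have h2 := vnDim_add_orth A.ker
  have h3 := dim_ker_orth_le (hT.comp hA.proj_ker) W
    (fun f => hW _ (A.ker.starProjection_apply_mem f))
  have h4 : (T ∘L A.ker.starProjection).ker = A.kerᗮ := by
    ext f
    constructor
    · intro hf
      have := hinj _ (A.ker.starProjection_apply_mem f) hf
      exact (Submodule.starProjection_apply_eq_zero_iff _).mp this
    · intro hf
      change T (A.ker.starProjection f) = 0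
      rw [(Submodule.starProjection_apply_eq_zero_iff _).mpr hf, map_zero]
  rw [h4, Submodule.orthogonal_orthogonal] at h3
  linarith

end Equivariant

end Pool.Agent.Lib.MP_a85771_al
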